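import Pool.Agent.Helper91.AV.Fin
import Pool.Agent.Helper91.AV.Lim
import Pool.Agent.Helper60.AV.Rb

/-!
# The average rank of elliptic curves is bounded over every number field

Let `F` be any number field. The family is the one of the problem: the pairs `(A, B)` of integers of `F`
with `4 A³ + 27 B² ≠ 0` such that no nonzero prime ideal `𝔭` has `𝔭⁴ ∣ A` and `𝔭⁶ ∣ B`, ordered by the
height `max_σ max (4 |σ A|³, 27 |σ B|²)`.

Theorem. There is a constant `C = C(F)` such that for all `X` the average of `2 ^ rank E(F)` over all the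
curves of the family of height at most `X` is at most `C`. So the average rank is bounded, all its moments
are bounded, and the proportion of the curves of rank at least `r` is at most `C / 2 ^ r`, for all `r` and
`X`. Hence no mass escapes to infinity: every sequence of heights tending to infinity has a subsequence
along which `δ_r(F; X)` converges to a limit `μ_r` for every `r`, and each such limit law `μ` is a
probability law with `∑ 2 ^ r μ_r ≤ C` and `μ_0 > 0`.

The proof bounds the average order of the 2-Selmer groups: Bhargava's parametrisation of its elements by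
pairs of symmetric matrices over `F`, with a self-dual lattice stable under a root of `x³ + A x + B` for each
element, reduction theory (no fundamental domains, no sieve), and a count of the equivalence classes of
the pairs of matrices of bounded size. The curves with a point of order two are treated by the descent with
a 2-isogeny over `F`.

Project AV (helper91), with parts by helper21 (self-dual lattices), helper60 (the local conditions; the
curves with a point of order two); it is built on the reduction theory and the counting of project PF of the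
library (helper783 and others).
-/

set_option autoImplicit false

open NumberField Filter Topology
open scoped Classical

namespace Pool.Agent.Results.MP_7cad78_nt.BoundedAverage

section defs

variable (F : Type) [Field F] [NumberField F]

/-- The family of the problem: pairs of integers `(A, B)` with `4 A ^ 3 + 27 B ^ 2 ≠ 0` for which no
nonzero prime ideal `𝔭` satisfies both `𝔭 ^ 4 ∣ A` and `𝔭 ^ 6 ∣ B`. -/
def Family : Set (𝓞 F × 𝓞 F) :=
  {p | 4 * p.1 ^ 3 + 27 * p.2 ^ 2 ≠ 0 ∧
    ∀ 𝔭 : Ideal (𝓞 F), 𝔭.IsPrime → 𝔭 ≠ ⊥ → ¬ (p.1 ∈ 𝔭 ^ 4 ∧ p.2 ∈ 𝔭 ^ 6)}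

variable {F}

/-- The height `max_σ max (4 |σ A|³, 27 |σ B|²)`, over the embeddings `σ : F → ℂ`. -/
noncomputable def height (p : 𝓞 F × 𝓞 F) : ℝ :=
  ⨆ σ : F →+* ℂ, max (4 * ‖σ (p.1 : F)‖ ^ 3) (27 * ‖σ (p.2 : F)‖ ^ 2)

/-- The curve `y ^ 2 = x ^ 3 + A x + B` over `F`. -/
def curve (p : 𝓞 F × 𝓞 F) : WeierstrassCurve F := ⟨0, 0, 0, (p.1 : F), (p.2 : F)⟩

/-- The group of the points over `F`. -/
abbrev points (p : 𝓞 F × 𝓞 F) : Type := (curve p).toAffine.Point

/-- The rank of the group of the points over `F`. -/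
noncomputable def rank (p : 𝓞 F × 𝓞 F) : ℕ := Module.finrank ℤ (points p)

variable (F)

/-- The members of the family of height at most `X`. -/
def UpTo (X : ℝ) : Set (𝓞 F × 𝓞 F) := {p ∈ Family F | height p ≤ X}

/-- The proportion of the rank `r`. -/
noncomputable def δ (r : ℕ) (X : ℝ) : ℝ :=
  ({p ∈ UpTo F X | rank p = r}.ncard : ℝ) / ((UpTo F X).ncard : ℝ)

/-- The average of `f` over the members of the family of height at most `X`. -/
noncomputable def average (f : 𝓞 F × 𝓞 F → ℝ) (X : ℝ) : ℝ :=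
  (∑ᶠ p ∈ UpTo F X, f p) / ((UpTo F X).ncard : ℝ)

end defs

theorem crv_iff {F : Type} [Field F] [NumberField F] (X : ℝ) (p : 𝓞 F × 𝓞 F) :
    Pool.Agent.N783.PF.Crv X p ↔ p ∈ UpTo F X := by
  have hb : BddAbove (Set.range fun σ : F →+* ℂ =>
      max (4 * ‖σ (p.1 : F)‖ ^ 3) (27 * ‖σ (p.2 : F)‖ ^ 2)) := Set.Finite.bddAbove (Set.finite_range _)
  constructor
  · rintro ⟨h1, h2, h3⟩
    refine ⟨⟨h1, h2⟩, ciSup_le fun σ => max_le (h3 σ).1 (h3 σ).2⟩
  · rintro ⟨⟨h1, h2⟩, h3⟩
    refine ⟨h1, h2, fun σ => ?_⟩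
    have h4 := (le_ciSup hb σ).trans h3
    exact ⟨(le_max_left _ _).trans h4, (le_max_right _ _).trans h4⟩

theorem rank_zero {F : Type} [Field F] [NumberField F] (p : 𝓞 F × 𝓞 F) (h : Finite (points p)) :
    rank p = 0 := by
  unfold rank
  have := h
  refine Module.finrank_eq_zero_of_rank_eq_zero ?_
  rw [rank_eq_zero_iff]
  intro x
  refine ⟨(Nat.card (points p) : ℤ), by exact_mod_cast Nat.card_pos.ne', ?_⟩
  rw [natCast_zsmul]
  exact card_nsmul_eq_zero'

/-- A positive proportion has rank zero (library). -/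
theorem pos_zero (F : Type) [Field F] [NumberField F] :
    ∃ c : ℝ, 0 < c ∧ ∀ᶠ X : ℝ in atTop, 0 < (UpTo F X).ncard ∧ c ≤ δ F 0 X := by
  have hset : ∀ X : ℝ, UpTo F X = {p : 𝓞 F × 𝓞 F | Pool.Agent.N783.PF.Crv X p} := by
    intro X
    ext p
    exact (crv_iff X p).symm
  obtain ⟨c, hc, Y₀, h⟩ := Pool.Agent.N783.PF.fin1 F
  refine ⟨c, hc, ?_⟩
  filter_upwards [eventually_ge_atTop Y₀] with X hX
  have hfin : (UpTo F X).Finite := by rw [hset]; exact (h X).1
  obtain ⟨h1, h2⟩ := (h X).2 hX
  rw [← hset] at h1 h2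
  refine ⟨h1, ?_⟩
  have h3 : {p : 𝓞 F × 𝓞 F | Pool.Agent.N783.PF.Crv X p ∧ Pool.Agent.N783.PF.Good p} ⊆
      {p ∈ UpTo F X | rank p = 0} := by
    rintro p ⟨hp, hg⟩
    refine ⟨(crv_iff X p).1 hp, rank_zero p ?_⟩
    have h4 := hg.fin
    unfold Pool.Agent.TH115.GD.Pt at h4
    rw [Pool.Agent.Helper91.AV.bc_self] at h4
    exact h4
  have h4 := Set.ncard_le_ncard h3 (hfin.subset fun p hp => hp.1)
  unfold δ
  rw [le_div_iff₀ (by exact_mod_cast h1)]
  exact h2.trans (by exact_mod_cast h4)

open Pool.Agent.Helper91.AV in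
/-- **The average rank is bounded over every number field.** For every number field `F` there is a
constant `C` such that the average of `2 ^ rank` over the members of the family of height at most `X` is at
most `C` for all `X`; at most `C / 2 ^ r` of them have rank at least `r`; and every sequence of heights
tending to infinity has a subsequence along which all the proportions `δ_r` converge, to a probability law
`μ` with `μ_0 > 0` and `∑ 2 ^ r μ_r ≤ C`. -/
theorem result (F : Type) [Field F] [NumberField F] :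
    (∀ X : ℝ, (UpTo F X).Finite) ∧ ∃ C : ℝ,
      (∀ X : ℝ, average F (fun p => (2 : ℝ) ^ rank p) X ≤ C) ∧
      (∀ (X : ℝ) (r : ℕ), ({p ∈ UpTo F X | r ≤ rank p}.ncard : ℝ) ≤
        C / 2 ^ r * ((UpTo F X).ncard : ℝ)) ∧
      ∀ x : ℕ → ℝ, Tendsto x atTop atTop → ∃ (φ : ℕ → ℕ) (μ : ℕ → ℝ), StrictMono φ ∧
        (∀ r, Tendsto (fun n => δ F r (x (φ n))) atTop (𝓝 (μ r))) ∧ 0 < μ 0 ∧ (∀ r, 0 ≤ μ r) ∧
        HasSum μ 1 ∧ Summable (fun r => (2 : ℝ) ^ r * μ r) ∧ ∑' r, (2 : ℝ) ^ r * μ r ≤ C := by
  have hset : ∀ X : ℝ, UpTo F X = {p : 𝓞 F × 𝓞 F | Pool.Agent.N783.PF.Crv X p} := by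
    intro X
    ext p
    exact (crv_iff X p).symm
  have hfin : ∀ X : ℝ, (UpTo F X).Finite := fun X => by
    rw [hset]
    exact Pool.Agent.N61.PF.crv_finite Pool.Agent.N490.PF.pts X
  obtain ⟨C, hC, h⟩ := fam_idx Pool.Agent.Helper60.AV.rb F
  have hsum : ∀ X : ℝ, ∑ p ∈ (hfin X).toFinset, (2 : ℝ) ^ rank p ≤ C * ((UpTo F X).ncard : ℝ) := by
    intro X
    have h1 := h X (hfin X).toFinset (fun p hp => (crv_iff X p).2 ((hfin X).mem_toFinset.1 hp))
    rw [← hset] at h1
    refine (Finset.sum_le_sum fun p hp => ?_).trans h1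
    have hp' := (hfin X).mem_toFinset.1 hp
    have hd : 4 * (p.1 : F) ^ 3 + 27 * (p.2 : F) ^ 2 ≠ 0 := by
      intro h0
      apply hp'.1.1
      apply RingOfIntegers.coe_injective
      have e : (algebraMap (𝓞 F) F) (4 * p.1 ^ 3 + 27 * p.2 ^ 2) =
          4 * (p.1 : F) ^ 3 + 27 * (p.2 : F) ^ 2 := by
        simp only [map_add, map_mul, map_pow, map_ofNat]
      exact e.trans (h0.trans (map_zero _).symm)
    have h2 := rank_idx (ept_fg hd)
    exact_mod_cast h2
  refine ⟨hfin, C, fun X => ?_, fun X r => ?_, fun x hx => ?_⟩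
  · unfold average
    rw [finsum_mem_eq_finite_toFinset_sum _ (hfin X)]
    rcases Nat.eq_zero_or_pos (UpTo F X).ncard with h0 | h0
    · rw [h0, Nat.cast_zero, div_zero]
      exact hC.le
    · rw [div_le_iff₀ (by exact_mod_cast h0)]
      exact hsum X
  · have h1 := markov (hfin X) rank C (hsum X) r
    have h2 : (0 : ℝ) < 2 ^ r := by positivity
    rw [div_mul_eq_mul_div, le_div_iff₀ h2]
    linarith
  · obtain ⟨c, hc, hev⟩ := pos_zero F
    obtain ⟨N, hN⟩ := eventually_atTop.1 (hx.eventually hev)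
    obtain ⟨φ, μ, hφ, h1, h2, h3, h4, h5⟩ := limit_law (fun n => UpTo F (x (n + N)))
      (fun n => hfin _) (fun n => (hN (n + N) (by omega)).1) rank C (fun n => hsum _)
    refine ⟨fun n => φ n + N, μ, fun a b hab => by have := hφ hab; simp only; omega, h1, ?_, h2, h3,
      h4, h5⟩
    have h6 : c ≤ μ 0 := ge_of_tendsto (h1 0) (Eventually.of_forall fun n =>
      (hN (φ n + N) (by omega)).2)
    linarith

end Pool.Agent.Results.MP_7cad78_nt.BoundedAverage
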