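import Pool.Agent.Helper91.AV.Tws
import Pool.Agent.Helper64.AV.Mq

/-!
# The ranks of the elliptic curves over `F` over a multiquadratic extension of `F`

Let `F` be any number field, and let `M = F(δ_1, …, δ_k)` with `δ_i ^ 2 ∈ F` be a multiquadratic extension.
The family is the one of the problem: the pairs `(A, B)` of integers of `F` with `4 A³ + 27 B² ≠ 0` such that
no nonzero prime ideal `𝔭` has `𝔭⁴ ∣ A` and `𝔭⁶ ∣ B`, ordered by the height
`max_σ max (4 |σ A|³, 27 |σ B|²)`.

Theorem. The average of `2 ^ (rank E(M) / 2 ^ k)` over all the curves `E` over `F` of the family of height at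
most `X` is bounded by a constant `C` for all `X`. So the average of `rank E(M)` is bounded, with all its
moments, and the proportion of the curves with `rank E(M) ≥ r` is at most `C / 2 ^ (r / 2 ^ k)`.

The rank of `E(M)` is the sum of the ranks over `F` of the `2 ^ k` quadratic twists of `E` by the products of
the `δ_i ^ 2`. The twisted curves are in general not minimal and not in the family; the bound for the
average order of the 2-Selmer groups (project AV) holds for all integral equations in a box, minimal or not.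

Project AV (helper91); the decomposition of the rank by helper64.
-/

set_option autoImplicit false

open NumberField Filter Topology
open scoped Classical

namespace Pool.Agent.Results.MP_7cad78_nt.MultiquadraticExtensions

section defs

variable (F : Type) [Field F] [NumberField F]

/-- The family of the problem: pairs of integers `(A, B)` with `4 A ^ 3 + 27 B ^ 2 ≠ 0` for which no
nonzero prime ideal `𝔭` satisfies both `𝔭 ^ 4 ∣ A` and `𝔭 ^ 6 ∣ B`. -/
def Family : Set (𝓞 F × 𝓞 F) :=
  {p | 4 * p.1 ^ 3 + 27 * p.2 ^ 2 ≠ 0 ∧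
    ∀ 𝔭 : Ideal (𝓞 F), 𝔭.IsPrime → 𝔭 ≠ ⊥ → ¬ (p.1 ∈ 𝔭 ^ 4 ∧ p.2 ∈ 𝔭 ^ 6)}

variable {F}

/-- The height `max_σ max (4 |σ A|³, 27 |σ B|²)`, over the embeddings `σ : F → ℂ`. -/
noncomputable def height (p : 𝓞 F × 𝓞 F) : ℝ :=
  ⨆ σ : F →+* ℂ, max (4 * ‖σ (p.1 : F)‖ ^ 3) (27 * ‖σ (p.2 : F)‖ ^ 2)

/-- The curve `y ^ 2 = x ^ 3 + A x + B` over an extension `M` of `F`. -/
def curve (M : Type) [Field M] [Algebra F M] (p : 𝓞 F × 𝓞 F) : WeierstrassCurve M :=
  ⟨0, 0, 0, algebraMap F M p.1, algebraMap F M p.2⟩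

/-- The rank of the group of the points over `M`. -/
noncomputable def rank (M : Type) [Field M] [Algebra F M] (p : 𝓞 F × 𝓞 F) : ℕ :=
  Module.finrank ℤ (curve M p).toAffine.Point

variable (F)

/-- The members of the family of height at most `X`. -/
def UpTo (X : ℝ) : Set (𝓞 F × 𝓞 F) := {p ∈ Family F | height p ≤ X}

/-- The average of `f` over the members of the family of height at most `X`. -/
noncomputable def average (f : 𝓞 F × 𝓞 F → ℝ) (X : ℝ) : ℝ :=
  (∑ᶠ p ∈ UpTo F X, f p) / ((UpTo F X).ncard : ℝ)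

end defs

theorem crv_iff {F : Type} [Field F] [NumberField F] (X : ℝ) (p : 𝓞 F × 𝓞 F) :
    Pool.Agent.N783.PF.Crv X p ↔ p ∈ UpTo F X := by
  have hb : BddAbove (Set.range fun σ : F →+* ℂ =>
      max (4 * ‖σ (p.1 : F)‖ ^ 3) (27 * ‖σ (p.2 : F)‖ ^ 2)) := Set.Finite.bddAbove (Set.finite_range _)
  constructor
  · rintro ⟨h1, h2, h3⟩
    refine ⟨⟨h1, h2⟩, ciSup_le fun σ => max_le (h3 σ).1 (h3 σ).2⟩
  · rintro ⟨⟨h1, h2⟩, h3⟩
    refine ⟨h1, h2, fun σ => ?_⟩
    have h4 := (le_ciSup hb σ).trans h3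
    exact ⟨(le_max_left _ _).trans h4, (le_max_right _ _).trans h4⟩

open Pool.Agent.Helper91.AV in
/-- **The average rank over a multiquadratic extension is bounded.** If `M` is generated over the number
field `F` by `k` elements whose squares are in `F`, then there is a constant `C` such that for all `X` the
average of `2 ^ (rank E(M) / 2 ^ k)` over the curves `E` over `F` of the family of height at most `X` is at
most `C`, and for all `r` at most `C / 2 ^ (r / 2 ^ k)` of them have `rank E(M) ≥ r`. -/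
theorem result (F : Type) [Field F] [NumberField F] (M : Type) [Field M] [NumberField M]
    [Algebra F M] (k : ℕ) (δ : Fin k → M) (hδ : ∀ i, ∃ d : F, δ i ^ 2 = algebraMap F M d)
    (hM : IntermediateField.adjoin F (Set.range δ) = ⊤) :
    (∀ X : ℝ, (UpTo F X).Finite) ∧ ∃ C : ℝ,
      (∀ X : ℝ, average F (fun p => (2 : ℝ) ^ ((rank M p : ℝ) / 2 ^ k)) X ≤ C) ∧
      ∀ (X : ℝ) (r : ℕ), ({p ∈ UpTo F X | r ≤ rank M p}.ncard : ℝ) ≤
        C / 2 ^ ((r : ℝ) / 2 ^ k) * ((UpTo F X).ncard : ℝ) := by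
  have hset : ∀ X : ℝ, UpTo F X = {p : 𝓞 F × 𝓞 F | Pool.Agent.N783.PF.Crv X p} := by
    intro X
    ext p
    exact (crv_iff X p).symm
  have hfin : ∀ X : ℝ, (UpTo F X).Finite := fun X => by
    rw [hset]
    exact Pool.Agent.N61.PF.crv_finite Pool.Agent.N490.PF.pts X
  choose e he using hδ
  obtain ⟨d, δ', h1, h2, h3⟩ := int_gen F M k δ e he hM
  obtain ⟨C, hC, h⟩ := fam_mq Pool.Agent.Helper64.AV.mq F M k d δ' h1 h2 h3
  have hsum : ∀ X : ℝ, ∑ p ∈ (hfin X).toFinset, (2 : ℝ) ^ ((rank M p : ℝ) / 2 ^ k) ≤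
      C * ((UpTo F X).ncard : ℝ) := by
    intro X
    have h4 := h X (hfin X).toFinset (fun p hp => (crv_iff X p).2 ((hfin X).mem_toFinset.1 hp))
    rw [← hset] at h4
    exact h4
  refine ⟨hfin, C, fun X => ?_, fun X r => ?_⟩
  · unfold average
    rw [finsum_mem_eq_finite_toFinset_sum _ (hfin X)]
    rcases Nat.eq_zero_or_pos (UpTo F X).ncard with h0 | h0
    · rw [h0, Nat.cast_zero, div_zero]
      exact hC.le
    · rw [div_le_iff₀ (by exact_mod_cast h0)]
      exact hsum X
  · have h5 : (0 : ℝ) < 2 ^ ((r : ℝ) / 2 ^ k) := by positivity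
    rw [div_mul_eq_mul_div, le_div_iff₀ h5, ncard_filter (hfin X), mul_comm]
    calc (2 : ℝ) ^ ((r : ℝ) / 2 ^ k) * (((hfin X).toFinset.filter fun p => r ≤ rank M p).card : ℝ)
        = ∑ p ∈ (hfin X).toFinset.filter (fun p => r ≤ rank M p), (2 : ℝ) ^ ((r : ℝ) / 2 ^ k) := by
          rw [Finset.sum_const, nsmul_eq_mul, mul_comm]
      _ ≤ ∑ p ∈ (hfin X).toFinset.filter (fun p => r ≤ rank M p),
          (2 : ℝ) ^ ((rank M p : ℝ) / 2 ^ k) := by
          refine Finset.sum_le_sum fun p hp => ?_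
          refine Real.rpow_le_rpow_of_exponent_le (by norm_num) ?_
          have h6 : (r : ℝ) ≤ (rank M p : ℝ) := by exact_mod_cast (Finset.mem_filter.1 hp).2
          gcongr
      _ ≤ ∑ p ∈ (hfin X).toFinset, (2 : ℝ) ^ ((rank M p : ℝ) / 2 ^ k) :=
          Finset.sum_le_sum_of_subset_of_nonneg (Finset.filter_subset _ _)
            fun _ _ _ => by positivity
      _ ≤ _ := hsum X

end Pool.Agent.Results.MP_7cad78_nt.MultiquadraticExtensions
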