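import Pool.Agent.Helper82.SX.Cnt2
import Pool.Agent.Helper82.SX.Pts
import Pool.Agent.Helper64.AV.Qe

/-!
# No points over infinitely many extensions at once, for a positive proportion of all elliptic curves over
# every number field

Let `F` be any number field. The family is the one of the problem: the pairs `(A, B)` of integers of `F`
with `4 A³ + 27 B² ≠ 0` such that no nonzero prime ideal `𝔭` has `𝔭⁴ ∣ A` and `𝔭⁶ ∣ B`, ordered by the
height `max_σ max (4 |σ A|³, 27 |σ B|²)`; `E` is the curve `y ² = f(x)`, `f = x ³ + A x + B`, and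
`E ^ d` its quadratic twist `y ² = x ³ + A d ² x + B d ³`.

For a finite set `Q` of primes of `F` let `C(f, Q)` be the class of all the finite Galois extensions `M / F`
of 2-power degree in which the primes over `2` and the `v ∈ Q` split completely and in which only primes
are ramified modulo which `f` is irreducible. There is NO condition at the infinite places: a real
place of `F` may split completely in `M` or become complex. The class is closed under composita and
infinite, with fields `M` of unbounded degree and all kinds of Galois groups: `f` is irreducible modulo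
the primes over `2`, so its Galois group contains a 3-cycle, and by the theorem of Chebotarev there are
infinitely many primes modulo which it is irreducible.

Theorem. For every number field `F`, every finite set `T` of primes of `F` and every finite extension `N / F`
there are a finite set `Q` of primes of `F`, disjoint from `T`, prime to `2` and split completely in `N`, and
`c > 0` such that for all large `X` at least `c` times the number of ALL the elliptic curves over `F` of
height at most `X` satisfy: `f` is irreducible over `F`, modulo the primes over `2` and modulo all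
`v ∈ T`, and for ALL `M ∈ C(f, Q)` at once the group `E(M)` is ZERO, in particular `rank E(M) = 0`; and so are
the groups `E ^ d (F)` for ALL `d ∈ F` which are squares in some `M ∈ C(f, Q)`.

If `N / F` is Galois of 2-power degree, the primes over `2` split completely in `N` and `T` contains the
ramified primes, then `N` itself is in the class `C(f, Q)` (this is a part of the theorem). So every
such field `N`, and every finite set of twists by `d` which are squares in the completions at the primes
over `2` (take the field `N` generated by their square roots), can be prescribed, and the curves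
found for it are good for infinitely many other fields and twists at the same time.

Proof: the 2-Selmer group of `E` over `M` is zero for all `M ∈ C(f, Q)` (`TU.mainU`, project TU, helper82,
used also in `MP_f80667_ag.TwoExtensionsEveryField` for Jacobians), so that the group `E(M)` is 2-divisible.
The polynomials `f` are chosen in addition such that, for `v` over `2`, no solution of `y ^ 2 = f(x)` modulo
`v ^ 2` has `f'(x) = 0` modulo `v`; then no point of `E` except `O` over `F_v = M_w` is divisible by all powers of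
2 (project SX, `SX/Loc`, `SX/Tra`, `SX/Cnt2`). `fin_gen` of project TF (helper874) is used for the counting of the
minimal equations.
-/

set_option autoImplicit false
set_option linter.all false

namespace Pool.Agent.Results.MP_7cad78_nt.RankZeroInWholeClass

open Polynomial Filter IsDedekindDomain NumberField
open scoped Classical

section family

variable (F : Type) [Field F] [NumberField F]

/-- The family of the problem: pairs of integers `(A, B)` with `4 A ^ 3 + 27 B ^ 2 ≠ 0` for which no
nonzero prime ideal `𝔭` satisfies both `𝔭 ^ 4 ∣ A` and `𝔭 ^ 6 ∣ B`. -/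
def Family : Set (𝓞 F × 𝓞 F) :=
  {p | 4 * p.1 ^ 3 + 27 * p.2 ^ 2 ≠ 0 ∧
    ∀ 𝔭 : Ideal (𝓞 F), 𝔭.IsPrime → 𝔭 ≠ ⊥ → ¬ (p.1 ∈ 𝔭 ^ 4 ∧ p.2 ∈ 𝔭 ^ 6)}

variable {F}

/-- The height `max_σ max (4 |σ A|³, 27 |σ B|²)`, over the embeddings `σ : F → ℂ`. -/
noncomputable def height (p : 𝓞 F × 𝓞 F) : ℝ :=
  ⨆ σ : F →+* ℂ, max (4 * ‖σ (p.1 : F)‖ ^ 3) (27 * ‖σ (p.2 : F)‖ ^ 2)

variable (F) in
/-- The members of the family of height at most `X`. -/
def UpTo (X : ℝ) : Set (𝓞 F × 𝓞 F) := {p ∈ Family F | height p ≤ X}

/-- The polynomial `f = x ^ 3 + A x + B`. -/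
noncomputable def poly (p : 𝓞 F × 𝓞 F) : (𝓞 F)[X] := X ^ 3 + C p.1 * X + C p.2

/-- The curve `E : y ^ 2 = x ^ 3 + A x + B` over an extension `M` of `F`. -/
def curve (M : Type) [Field M] [Algebra F M] (p : 𝓞 F × 𝓞 F) : WeierstrassCurve M :=
  ⟨0, 0, 0, algebraMap F M p.1, algebraMap F M p.2⟩

/-- The quadratic twist `E ^ d : y ^ 2 = x ^ 3 + A d ^ 2 x + B d ^ 3` over `F`. -/
def twist (d : F) (p : 𝓞 F × 𝓞 F) : WeierstrassCurve F :=
  ⟨0, 0, 0, (p.1 : F) * d ^ 2, (p.2 : F) * d ^ 3⟩

/-- The rank of the group of the points. -/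
noncomputable def rank {K : Type} [Field K] (W : WeierstrassCurve K) : ℕ :=
  Module.finrank ℤ W.toAffine.Point

/-- The point at infinity is the only point, and (so) the rank is zero. -/
structure OnePoint {K : Type} [Field K] (W : WeierstrassCurve K) : Prop where
  points : ∀ P : W.toAffine.Point, P = 0
  rank : rank W = 0

end family

section fields

variable {F : Type} [Field F] [NumberField F]

/-- `f` is irreducible modulo `v`. -/
def IrreducibleMod (f : (𝓞 F)[X]) (v : HeightOneSpectrum (𝓞 F)) : Prop :=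
  Irreducible (f.map (Ideal.Quotient.mk v.asIdeal))

/-- `M / F` is unramified at `v`. -/
def Unramified (v : HeightOneSpectrum (𝓞 F)) (M : Type) [Field M] [NumberField M]
    [Algebra F M] : Prop :=
  ∀ w : HeightOneSpectrum (𝓞 M), v.asIdeal.map (algebraMap (𝓞 F) (𝓞 M)) ≤ w.asIdeal →
    ¬ v.asIdeal.map (algebraMap (𝓞 F) (𝓞 M)) ≤ w.asIdeal ^ 2

/-- `v` splits completely in `M`: it is unramified and all integers of `M` are congruent to integers of
`F` modulo every prime over `v`. -/
def SplitsCompletely (v : HeightOneSpectrum (𝓞 F)) (M : Type) [Field M] [NumberField M]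
    [Algebra F M] : Prop :=
  Unramified v M ∧
  ∀ w : HeightOneSpectrum (𝓞 M), v.asIdeal.map (algebraMap (𝓞 F) (𝓞 M)) ≤ w.asIdeal →
    ∀ y : 𝓞 M, ∃ c : 𝓞 F, y - algebraMap (𝓞 F) (𝓞 M) c ∈ w.asIdeal

/-- `M` belongs to the class `C(f, Q)`. (For a Galois extension an embedding over `F` in the completion of
`F` at `v` exists if and only if `v` splits completely.) -/
structure InClass (Q : Finset (HeightOneSpectrum (𝓞 F))) (f : (𝓞 F)[X]) (M : Type) [Field M]
    [NumberField M] [Algebra F M] : Prop where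
  galois : IsGalois F M
  degree : ∃ n : ℕ, Module.finrank F M = 2 ^ n
  two : ∀ v : HeightOneSpectrum (𝓞 F), (2 : 𝓞 F) ∈ v.asIdeal →
    Nonempty (M →ₐ[F] v.adicCompletion F)
  split : ∀ v ∈ Q, SplitsCompletely v M
  ramified : ∀ v : HeightOneSpectrum (𝓞 F), Unramified v M ∨ IrreducibleMod f v

end fields

section good

variable {F : Type} [Field F] [NumberField F]

/-- The properties of the elliptic curves in the theorem. -/
structure Good (Q T : Finset (HeightOneSpectrum (𝓞 F))) (p : 𝓞 F × 𝓞 F) : Prop where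
  irreducible : Irreducible ((poly p).map (algebraMap (𝓞 F) F))
  two : ∀ v : HeightOneSpectrum (𝓞 F), (2 : 𝓞 F) ∈ v.asIdeal → IrreducibleMod (poly p) v
  mod : ∀ v ∈ T, IrreducibleMod (poly p) v
  points : ∀ (M : Type) [Field M] [NumberField M] [Algebra F M], InClass Q (poly p) M →
    OnePoint (curve M p) ∧
      ∀ d : F, d ≠ 0 → IsSquare (algebraMap F M d) → OnePoint (twist d p)

end good

/-- Primes which split completely, in terms of ideals. -/
theorem split_of {F : Type} [Field F] [NumberField F] {v : HeightOneSpectrum (𝓞 F)} {M : Type}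
    [Field M] [NumberField M] [Algebra F M] (h : Pool.Agent.N874.TF.Spl v M) :
    SplitsCompletely v M := by
  refine ⟨fun w hw hw2 => ?_, fun w hw y => ?_⟩
  · obtain ⟨a, ha, ha2⟩ : ∃ a ∈ v.asIdeal, a ∉ v.asIdeal ^ 2 := by
      by_contra hc
      push Not at hc
      have h1 : v.asIdeal ≤ v.asIdeal ^ 2 := hc
      have h2 : v.asIdeal ^ 2 < v.asIdeal :=
        Ideal.pow_lt_self v.asIdeal v.ne_bot v.isPrime.ne_top 2 le_rfl
      exact absurd h1 (not_le_of_gt h2)
    have h1 := Pool.Agent.N874.TF.val_exp ha ha2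
    have h2 := h.1 w (Ideal.map_le_iff_le_comap.1 hw) (a : F)
    rw [h1] at h2
    have h3 : algebraMap (𝓞 F) (𝓞 M) a ∈ w.asIdeal ^ 2 := hw2 (Ideal.mem_map_of_mem _ ha)
    have h4 := (w.intValuation_le_pow_iff_mem (algebraMap (𝓞 F) (𝓞 M) a) 2).2 h3
    have h5 : w.valuation M (algebraMap F M (a : F)) =
        w.intValuation (algebraMap (𝓞 F) (𝓞 M) a) := by
      rw [← HeightOneSpectrum.valuation_of_algebraMap (K := M)]
      rfl
    rw [← h5, h2] at h4
    rw [WithZero.exp_le_exp] at h4
    norm_num at h4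
  · obtain ⟨c, hc⟩ := h.2 w (Ideal.map_le_iff_le_comap.1 hw) (Ideal.Quotient.mk w.asIdeal y)
    exact ⟨c, Ideal.Quotient.eq.1 hc.symm⟩

theorem spl_of {F : Type} [Field F] [NumberField F] (M : Type) [Field M] [NumberField M]
    [Algebra F M] (v : HeightOneSpectrum (𝓞 F)) (hv : SplitsCompletely v M) :
    Pool.Agent.N874.TF.Spl v M := by
  refine ⟨Pool.Agent.N874.TF.unr_of hv.1, fun w hw y => ?_⟩
  obtain ⟨y, rfl⟩ := Ideal.Quotient.mk_surjective y
  obtain ⟨c, hc⟩ := hv.2 w (Ideal.map_le_iff_le_comap.2 hw) y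
  exact ⟨c, (Ideal.Quotient.eq.2 hc).symm⟩

theorem crv_iff {F : Type} [Field F] [NumberField F] (X : ℝ) (p : 𝓞 F × 𝓞 F) :
    Pool.Agent.N783.PF.Crv X p ↔ p ∈ UpTo F X := by
  have hb : BddAbove (Set.range fun σ : F →+* ℂ =>
      max (4 * ‖σ (p.1 : F)‖ ^ 3) (27 * ‖σ (p.2 : F)‖ ^ 2)) := Set.Finite.bddAbove (Set.finite_range _)
  constructor
  · rintro ⟨h1, h2, h3⟩
    refine ⟨⟨h1, h2⟩, ciSup_le fun σ => max_le (h3 σ).1 (h3 σ).2⟩
  · rintro ⟨⟨h1, h2⟩, h3⟩
    refine ⟨h1, h2, fun σ => ?_⟩
    have h4 := (le_ciSup hb σ).trans h3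
    exact ⟨(le_max_left _ _).trans h4, (le_max_right _ _).trans h4⟩

theorem one_of {K : Type} [Field K] (W : WeierstrassCurve K) (h : ∀ P : W.toAffine.Point, P = 0) :
    OnePoint W := by
  refine ⟨h, ?_⟩
  unfold rank
  haveI : Subsingleton W.toAffine.Point := ⟨fun P Q => by rw [h P, h Q]⟩
  exact Module.finrank_zero_of_subsingleton

section aux

variable {F M : Type} [Field F] [NumberField F] [Field M] [NumberField M] [Algebra F M]

theorem pts_of (p : 𝓞 F × 𝓞 F)
    (h : ∀ P : ((Pool.Agent.TH942.sw (algebraMap F M (p.1 : F)) (algebraMap F M (p.2 : F))).baseChange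
      M).toAffine.Point, P = 0) : ∀ P : (curve M p).toAffine.Point, P = 0 := by
  have key : ∀ W : WeierstrassCurve M,
      (Pool.Agent.TH942.sw (algebraMap F M (p.1 : F)) (algebraMap F M (p.2 : F))).baseChange M = W →
      ∀ P : W.toAffine.Point, P = 0 := by
    rintro W rfl
    exact h
  exact key _ (Pool.Agent.Helper82.SX.base_eq _ _)

/-- `E ^ d (F)` embeds in `E(M)`. -/
theorem twist_of (p : 𝓞 F × 𝓞 F) {d : F} (hd : d ≠ 0) {s : M} (hs : s ^ 2 = algebraMap F M d)
    (h : ∀ P : (curve M p).toAffine.Point, P = 0) : ∀ P : (twist d p).toAffine.Point, P = 0 := by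
  have hd0 : algebraMap F M d ≠ 0 := by
    rw [Ne, map_eq_zero]
    exact hd
  have hs0 : s ≠ 0 := by
    rintro rfl
    rw [zero_pow two_ne_zero] at hs
    exact hd0 hs.symm
  have ha : algebraMap F M (p.1 : F) = s⁻¹ ^ 4 * algebraMap F M ((p.1 : F) * d ^ 2) := by
    rw [map_mul, map_pow, ← hs]
    field_simp
  have hb : algebraMap F M (p.2 : F) = s⁻¹ ^ 6 * algebraMap F M ((p.2 : F) * d ^ 3) := by
    rw [map_mul, map_pow, ← hs]
    field_simp
  let f := Pool.Agent.Helper64.AV.tw (algebraMap F M) (inv_ne_zero hs0) ha hb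
  have hf : Function.Injective f := Pool.Agent.Helper64.AV.tw_inj _ _ _ _
  intro P
  apply hf
  exact (h (f P)).trans (map_zero f).symm

end aux

/-- **No points over infinitely many extensions at once.** For every number field `F`, every finite set `T` of
primes and every finite extension `N / F` there are a finite set `Q` of primes, disjoint from `T`, prime to 2
and split completely in `N`, and `c > 0` such that for all large `X` at least `c` times the number of all the
elliptic curves over `F` of height at most `X` are good: in particular for ALL the fields `M` in the class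
`C(f, Q)` at once `E(M) = 0`, and `E ^ d (F) = 0` for all `d` which are squares in a field of the class. If `N / F` is Galois of 2-power degree, unramified outside `T`, and the primes over `2` split
completely in `N`, then `N` is in the class of all good curves. -/
theorem result (F : Type) [Field F] [NumberField F] (T : Finset (HeightOneSpectrum (𝓞 F)))
    (N : Type) [Field N] [NumberField N] [Algebra F N] :
    (∀ X : ℝ, (UpTo F X).Finite) ∧
    ∃ Q : Finset (HeightOneSpectrum (𝓞 F)), Disjoint Q T ∧ (∀ v ∈ Q, (2 : 𝓞 F) ∉ v.asIdeal) ∧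
      (∀ v ∈ Q, SplitsCompletely v N) ∧
      (IsGalois F N → (∃ n : ℕ, Module.finrank F N = 2 ^ n) →
        (∀ v : HeightOneSpectrum (𝓞 F), (2 : 𝓞 F) ∈ v.asIdeal →
          Nonempty (N →ₐ[F] v.adicCompletion F)) →
        (∀ v ∉ T, Unramified v N) → ∀ p, Good Q T p → InClass Q (poly p) N) ∧
      ∃ c : ℝ, 0 < c ∧ ∀ᶠ X : ℝ in atTop, 0 < (UpTo F X).ncard ∧
        c * ((UpTo F X).ncard : ℝ) ≤ ({p ∈ UpTo F X | Good Q T p}.ncard : ℝ) := by
  have hset : ∀ X : ℝ, UpTo F X = {p : 𝓞 F × 𝓞 F | Pool.Agent.N783.PF.Crv X p} := by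
    intro X
    ext p
    exact (crv_iff X p).symm
  obtain ⟨Q, hQT, hQ2, hQN, c₀, hc₀, B₀, hB₀⟩ := Pool.Agent.Helper82.SX.main2 F (g := 1) rfl T N
  have h1 : ∃ c : ℝ, 0 < c ∧ ∃ B₀ : ℕ, ∀ B ≥ B₀,
      {f : (𝓞 F)[X] | Pool.Agent.N783.PF.Ht 1 B f}.Finite ∧
      c * ({f : (𝓞 F)[X] | Pool.Agent.N783.PF.Ht 1 B f}.ncard : ℝ) ≤
        ({f : (𝓞 F)[X] | Pool.Agent.N783.PF.Ht 1 B f ∧ Irreducible (Pool.Agent.N783.PF.fF f) ∧
          ((∀ v : HeightOneSpectrum (𝓞 F), (2 : 𝓞 F) ∈ v.asIdeal →
            Irreducible (Pool.Agent.N783.PF.rd v.asIdeal f)) ∧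
          (∀ v ∈ T, Irreducible (Pool.Agent.N783.PF.rd v.asIdeal f)) ∧
          Pool.Agent.Helper82.TU.Unr2 {𝔭 | ∃ v ∈ Q, 𝔭 = v.asIdeal} f f ∧
          ∀ v : HeightOneSpectrum (𝓞 F), (2 : 𝓞 F) ∈ v.asIdeal →
            Pool.Agent.Helper82.SX.RegP v f) ∧
          Pool.Agent.N783.PF.Min 1 f}.ncard : ℝ) := by
    refine ⟨c₀, hc₀, B₀, fun B hB => ?_⟩
    obtain ⟨k1, k2⟩ := hB₀ B hB
    refine ⟨k1, k2.trans (Nat.cast_le.2 (Set.ncard_le_ncard ?_ (k1.subset fun f hf => hf.1)))⟩
    rintro f ⟨m1, m2, m3, m4, m5, -, m6, m7, m8⟩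
    exact ⟨m1, m2, ⟨m3, m4, m6, m8⟩, m7⟩
  obtain ⟨c, hc, Y₀, hY⟩ := Pool.Agent.N874.TF.fin_gen Pool.Agent.N490.PF.pts (F := F)
    (Gd := Good Q T) h1 (by
    rintro B f hHt hirr ⟨k1, k2, k4, k5⟩
    have e : f = Pool.Agent.N61.PF.pol (f.coeff 1) (f.coeff 0) := Pool.Agent.N61.PF.eq_pol hHt
    generalize f.coeff 1 = a at e ⊢
    generalize f.coeff 0 = b at e ⊢
    subst e
    refine ⟨hirr, k1, k2, ?_⟩
    intro M _ _ _ hM
    haveI := hM.galois
    obtain ⟨n, hn⟩ := hM.degree
    have hsel := k4 M (fun v hv => by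
        obtain ⟨σ⟩ := hM.two v hv
        exact ⟨σ, fun y => σ.commutes y⟩) n hn (by
        rintro v ⟨v', hv', h⟩
        rw [HeightOneSpectrum.ext h]
        exact spl_of M v' (hM.split v' hv')) (by
        intro v hv
        rcases hM.ramified v with h | h
        · exact absurd (Pool.Agent.N874.TF.unr_of h) hv
        · exact h)
    have m3 := pts_of (a, b) (Pool.Agent.Helper82.SX.pts_zero hn hirr hsel k1 k5 hM.two)
    exact ⟨one_of _ m3, fun d hd ⟨s, hs⟩ =>
      one_of _ (twist_of (a, b) hd (s := s) (by rw [hs, pow_two]) m3)⟩)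
  refine ⟨fun X => by rw [hset]; exact (hY X).1, Q, hQT, hQ2, fun v hv => split_of (hQN v hv),
    fun i1 i2 i3 i4 p hp => ⟨i1, i2, i3, fun v hv => split_of (hQN v hv), fun v => ?_⟩, c,
    hc, ?_⟩
  · by_cases hv : v ∈ T
    · exact Or.inr (hp.mod v hv)
    · exact Or.inl (i4 v hv)
  filter_upwards [eventually_ge_atTop Y₀] with X hX
  obtain ⟨k1, k2⟩ := (hY X).2 hX
  rw [← hset] at k1 k2
  refine ⟨k1, k2.trans (le_of_eq ?_)⟩
  congr 2
  ext p
  exact and_congr_left fun _ => crv_iff X p

end Pool.Agent.Results.MP_7cad78_nt.RankZeroInWholeClass
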