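import Pool.Agent.Helper91.AV.Sta
import Pool.Agent.Helper45.AV.Srb

/-!
# The 2-Selmer groups of the elliptic curves over a number field

Let `F` be any number field. Two families are considered: the family of the problem, that is the pairs
`(A, B)` of integers of `F` with `4 A³ + 27 B² ≠ 0` such that no nonzero prime ideal `𝔭` has `𝔭⁴ ∣ A` and
`𝔭⁶ ∣ B`, ordered by the height `max_σ max (4 |σ A|³, 27 |σ B|²)`; and the isomorphism classes of elliptic
curves over `F`, ordered by the standard height. (If `F` has infinitely many units, one isomorphism class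
occurs several times in the first family.)

Theorem. For both families the average of `#Sel₂(E/F)` over all the curves of height at most `X` is
bounded by a constant for all `X`. So the average of `2 ^ rank · #Ш(E/F)[2]` is bounded. Every sequence of
heights tending to infinity has a subsequence along which the proportions of the curves of 2-Selmer rank `s`
converge for all `s`, to a probability law `μ` with `μ_0 > 0` and `∑ 2 ^ s μ_s ≤ C`. The same is true of the
ranks of the isomorphism classes.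

Project AV (helper91). Parts by helper21 (self-dual lattices, isomorphic curves), helper28 (the sequence
`E(F)/2 → Sel₂ → Ш[2]`), helper45 (comparison of two definitions of the Selmer group; the curves with a
point of order two), helper48 (units), helper60 (local conditions).
-/

set_option autoImplicit false

open NumberField Filter Topology
open scoped Classical

namespace Pool.Agent.Results.MP_7cad78_nt.SelmerGroups

open Pool.Agent.Helper91.AV

section defs

variable (F : Type) [Field F] [NumberField F]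

/-- The family of the problem: pairs of integers `(A, B)` with `4 A ^ 3 + 27 B ^ 2 ≠ 0` for which no
nonzero prime ideal `𝔭` satisfies both `𝔭 ^ 4 ∣ A` and `𝔭 ^ 6 ∣ B`. -/
def Family : Set (𝓞 F × 𝓞 F) :=
  {p | 4 * p.1 ^ 3 + 27 * p.2 ^ 2 ≠ 0 ∧
    ∀ 𝔭 : Ideal (𝓞 F), 𝔭.IsPrime → 𝔭 ≠ ⊥ → ¬ (p.1 ∈ 𝔭 ^ 4 ∧ p.2 ∈ 𝔭 ^ 6)}

variable {F}

/-- The height `max_σ max (4 |σ A|³, 27 |σ B|²)`, over the embeddings `σ : F → ℂ`. -/
noncomputable def height (p : 𝓞 F × 𝓞 F) : ℝ :=
  ⨆ σ : F →+* ℂ, max (4 * ‖σ (p.1 : F)‖ ^ 3) (27 * ‖σ (p.2 : F)‖ ^ 2)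

/-- The curve `y ^ 2 = x ^ 3 + A x + B` over `F`. -/
def curve (p : 𝓞 F × 𝓞 F) : WeierstrassCurve F := ⟨0, 0, 0, (p.1 : F), (p.2 : F)⟩

/-- The rank of the group of the points over `F`. -/
noncomputable def rank (p : 𝓞 F × 𝓞 F) : ℕ := Module.finrank ℤ (curve p).toAffine.Point

/-- The 2-Selmer rank: the order of the 2-Selmer group is `2 ^ selmerRank p`, see the theorem. -/
noncomputable def selmerRank (p : 𝓞 F × 𝓞 F) : ℕ := Nat.log 2 (Nat.card (Selmer (curve p) 2))

variable (F)

/-- The members of the family of height at most `X`. -/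
def UpTo (X : ℝ) : Set (𝓞 F × 𝓞 F) := {p ∈ Family F | height p ≤ X}

end defs

theorem crv_iff {F : Type} [Field F] [NumberField F] (X : ℝ) (p : 𝓞 F × 𝓞 F) :
    Pool.Agent.N783.PF.Crv X p ↔ p ∈ UpTo F X := by
  have hb : BddAbove (Set.range fun σ : F →+* ℂ =>
      max (4 * ‖σ (p.1 : F)‖ ^ 3) (27 * ‖σ (p.2 : F)‖ ^ 2)) := Set.Finite.bddAbove (Set.finite_range _)
  constructor
  · rintro ⟨h1, h2, h3⟩
    refine ⟨⟨h1, h2⟩, ciSup_le fun σ => max_le (h3 σ).1 (h3 σ).2⟩
  · rintro ⟨⟨h1, h2⟩, h3⟩
    refine ⟨h1, h2, fun σ => ?_⟩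
    have h4 := (le_ciSup hb σ).trans h3
    exact ⟨(le_max_left _ _).trans h4, (le_max_right _ _).trans h4⟩

/-- **The 2-Selmer groups of all elliptic curves over a number field.** (1) For every curve
`y ^ 2 = x ^ 3 + A x + B` with integers `A`, `B`: the groups `Sel₂` and `Ш[2]` are finite, `#Sel₂` is
`2 ^ selmerRank`, and `2 ^ rank · #Ш[2] ≤ #Sel₂`. (2) The rank and the 2-Selmer rank only depend on the
isomorphism class. (3) There is a constant `C` such that the 2-Selmer ranks of the curves of the family, the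
2-Selmer ranks of the isomorphism classes, and the ranks of the isomorphism classes satisfy `Law` with `C`:
bounded average of `2 ^ s`, proportion of `s ≥ k` at most `C / 2 ^ k`, and limit laws which are probability
laws `μ` with `μ_0 > 0` and `∑ 2 ^ s μ_s ≤ C`. -/
theorem result (F : Type) [Field F] [NumberField F] :
    (∀ p : 𝓞 F × 𝓞 F, 4 * p.1 ^ 3 + 27 * p.2 ^ 2 ≠ 0 →
      Finite (Selmer (curve p) 2) ∧ Finite (ShaTwo (curve p)) ∧
      Nat.card (Selmer (curve p) 2) = 2 ^ selmerRank p ∧
      2 ^ rank p * Nat.card (ShaTwo (curve p)) ≤ Nat.card (Selmer (curve p) 2)) ∧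
    (∀ p q : 𝓞 F × 𝓞 F, 4 * p.1 ^ 3 + 27 * p.2 ^ 2 ≠ 0 → IsoRel p q →
      rank p = rank q ∧ selmerRank p = selmerRank q) ∧
    ∃ C : ℝ, Law (UpTo F) selmerRank C ∧ Law (ClsHt F) (fun c => selmerRank c.rep) C ∧
      Law (ClsHt F) (fun c => rank c.rep) C := by
  have hSRB : S_SRB := Pool.Agent.Helper45.AV.srb
  refine ⟨fun p hp => ?_, fun p q hp h => ⟨rank_iso h, selRank_iso hp h⟩, ?_⟩
  · obtain ⟨h1, h2, h3⟩ := rank_le_selRank hSRB p hp
    have hf := selmer_finA hSRB p hp
    have h4 := selRank_eq _ hf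
    refine ⟨hf, h1, h4, ?_⟩
    have h5 : Nat.card (Selmer (curve p) 2) = _ := h4.trans h2.symm
    rw [h5]
    exact Nat.mul_le_mul_right _ h3
  · obtain ⟨C₁, h1⟩ := law_fam hSRB F
    obtain ⟨C₂, h2⟩ := law_ht hSRB F
    obtain ⟨C₃, h3⟩ := law_htr F
    have e : (fun X => {p : 𝓞 F × 𝓞 F | Pool.Agent.N783.PF.Crv X p}) = UpTo F := by
      funext X
      ext p
      exact crv_iff X p
    rw [e] at h1
    exact ⟨max C₁ (max C₂ C₃), h1.mono (le_max_left _ _),
      h2.mono ((le_max_left _ _).trans (le_max_right _ _)),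
      h3.mono ((le_max_right _ _).trans (le_max_right _ _))⟩

end Pool.Agent.Results.MP_7cad78_nt.SelmerGroups
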